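import Pool.Agent.R703.FS.Pair

/-!
MP_3f89b9_al (Dade's conjecture on alternating sums over chains).

For a finite group `G` and a prime `p` the alternating sum `∑_c (-1)^|c| f (G_c)` is over
representatives of the conjugacy classes of chains `c` of nontrivial `p`-subgroups of `G`, the empty
chain included; `G_c` is the stabiliser of `c`. If `O_p (G) = 1`, these are the chains
`1 < D_1 < ⋯ < D_n` of Dade's conjecture. `pairSum n m H` is the sum of `ν_n(χ) ν_m(χ)` over the
irreducible complex characters `χ` of `H`, where `ν_n(χ) = 1/|H| ∑ h, χ(h ^ n)` is the `n`-th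
Frobenius–Schur indicator, an integer (so `pairSum 2 2 H` is the number of real valued irreducible
characters of `H`).
-/

set_option autoImplicit false

namespace Pool.Agent.Results.MP_3f89b9_al.IndicatorProducts

open Pool.Agent.Y63.KR (alternatingSum)
open Pool.Agent.R703.FS

/-- Let `G` be a finite group, `p` a prime, and `n, m, n', m'` integers prime to `p` with `n ≡ n'`
and `m ≡ m'` modulo the `p'`-part of `|G|`. The alternating sum over chains of the sums of
`ν_n(χ) ν_m(χ)` over the irreducible characters is equal to that of the sums of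
`ν_{n'}(χ) ν_{m'}(χ)`. -/
theorem result (p : ℕ) [Fact p.Prime] (G : Type) [Group G] [Finite G] (n m n' m' : ℕ)
    (hn : ¬ p ∣ n) (hm : ¬ p ∣ m) (hn' : ¬ p ∣ n') (hm' : ¬ p ∣ m')
    (h1 : n ≡ n' [MOD Nat.card G / p ^ (Nat.card G).factorization p])
    (h2 : m ≡ m' [MOD Nat.card G / p ^ (Nat.card G).factorization p]) :
    alternatingSum p G (fun H => pairSum n m H) =
      alternatingSum p G (fun H => pairSum n' m' H) :=
  main_pair hn hm hn' hm' h1 h2

end Pool.Agent.Results.MP_3f89b9_al.IndicatorProducts
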