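import Pool.Agent.R674.Tw.Fin

/-!
MP_3f89b9_al (Dade's conjecture on alternating sums over `l`-chains; the prime is called `p`).

Notation (`Pool/Agent/Y63/KR/Defs.lean`, `Pool/Agent/R674/Tw/Fin.lean`).
* `alternatingSum p G f = ∑_c (-1)^|c| f(G_c)`, the sum over representatives of the `G`-classes of
  chains `c` of nontrivial `p`-subgroups of `G` (the empty chain included), `G_c` the stabiliser; if
  `O_p(G) = 1`, these are the chains of Q1;
* `numTw l σ H`, for a linear character `l : G →* ℂˣ` and an automorphism `σ` of `ℂ`, is the number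
  of the irreducible characters `χ` of `H` with `l(x) σ(χ(x)) = χ(x)` for all `x ∈ H`;
* `numMoved l σ H` is the number of the other irreducible characters of `H`.
-/

namespace Pool.Agent.Results.MP_3f89b9_al.LinearTwists

open Pool.Agent.Y63.KR (alternatingSum)
open Pool.Agent.R674.Tw

/-- Let `G` be a finite group, `p` a prime, `m` the `p'`-part of `|G|`.
1. Let `l`, `l'` be linear characters of `G` of `p`-power order, `σ`, `σ'` automorphisms of `ℂ` which
agree on the `m`-th roots of unity. Then the alternating sums over the chains of nontrivial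
`p`-subgroups of the numbers of the irreducible characters `χ` of the stabilisers with
`l · σ(χ) = χ`, and of those with `l' · σ'(χ) = χ`, are equal.
2. In particular, if `σ` fixes the `m`-th roots of unity, then the alternating sum of the numbers of
the irreducible characters `χ` with `l · σ(χ) ≠ χ` vanishes. -/
theorem result (p : ℕ) [Fact p.Prime] (G : Type) [Group G] [Finite G] :
    (∀ (l l' : G →* ℂˣ) (σ σ' : ℂ ≃+* ℂ),
      (∃ a : ℕ, ∀ x, l x ^ p ^ a = 1) → (∃ a : ℕ, ∀ x, l' x ^ p ^ a = 1) →
      (∀ z : ℂ, z ^ (Nat.card G / p ^ (Nat.card G).factorization p) = 1 → σ z = σ' z) →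
      alternatingSum p G (fun H => (numTw l σ H : ℤ)) =
        alternatingSum p G (fun H => (numTw l' σ' H : ℤ))) ∧
    (∀ (l : G →* ℂˣ) (σ : ℂ ≃+* ℂ), (∃ a : ℕ, ∀ x, l x ^ p ^ a = 1) →
      (∀ z : ℂ, z ^ (Nat.card G / p ^ (Nat.card G).factorization p) = 1 → σ z = z) →
      alternatingSum p G (fun H => (numMoved l σ H : ℤ)) = 0) :=
  ⟨fun _ _ _ _ hl hl' h => twisted hl hl' h, fun _ _ hl h => moved hl h⟩

end Pool.Agent.Results.MP_3f89b9_al.LinearTwists
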