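import Pool.Agent.R615.LV.Lev

/-!
# Alternating sums over chains of `p`-subgroups and fields of values of characters

For a finite group `G` and a prime `p` the alternating sum `∑_c (-1)^|c| f (G_c)` is over
representatives of the conjugacy classes of chains `c` of nontrivial `p`-subgroups of `G`, the empty
chain included; `G_c` is the stabiliser of `c`.  If `O_p (G) = 1`, these are the chains
`1 < D_1 < ⋯ < D_n` of Dade's conjecture.

The alternating sum of the number of irreducible characters whose values are fixed by an
automorphism of the complex numbers only depends on the action of the automorphism on the roots of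
unity of order prime to `p`.  The alternating sum of the number of irreducible characters of a
given positive `p`-rationality level vanishes.
-/

set_option autoImplicit false

namespace Pool.Agent.Results.MP_3f89b9_al.RationalityLevels

open Pool.Agent.Y63.KR (IsPChain chainStabilizer alternatingSum)
open Pool.Agent.R615.LV

/-- Let `G` be a finite group and `p` a prime.
1. If two automorphisms of the complex numbers agree on the roots of unity whose order divides the
`p'`-part of `|G|`, then the alternating sums over chains of the numbers of irreducible characters
fixed by them are equal.
2. For `a ≥ 1` (`a ≥ 3` if `p = 2`) the alternating sum of the numbers of irreducible characters of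
`p`-rationality level `a` vanishes.
3. For `a ≥ 0` (`a ≥ 2` if `p = 2`) the alternating sum of the numbers of irreducible characters of
level at most `a` is that of the numbers of all conjugacy classes. -/
theorem result (p : ℕ) [Fact p.Prime] (G : Type) [Group G] [Finite G] :
    (∀ σ σ' : ℂ ≃+* ℂ,
      (∀ z : ℂ, z ^ (Nat.card G / p ^ (Nat.card G).factorization p) = 1 → σ z = σ' z) →
      alternatingSum p G (fun H => (numIrrFix σ H : ℤ)) =
        alternatingSum p G (fun H => (numIrrFix σ' H : ℤ))) ∧
    (∀ a : ℕ, 1 ≤ a → (p = 2 → 3 ≤ a) →
      alternatingSum p G (fun H => (numIrrLevel p a H : ℤ)) = 0) ∧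
    (∀ a : ℕ, (p = 2 → 2 ≤ a) →
      alternatingSum p G (fun H => (numIrrLE p a H : ℤ)) =
        alternatingSum p G (fun H => (Nat.card (ConjClasses H) : ℤ))) :=
  ⟨fun σ σ' h => fix_congr σ σ' h, fun a h1 h2 => sum_level' a h1 h2, fun a h => sum_LE a h⟩

end Pool.Agent.Results.MP_3f89b9_al.RationalityLevels
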